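import Pool.Agent.Lib.MP_edb5be_nt.PD.Iface2

/-!
Project PD (MP_edb5be_nt), module PLOC (helper22).
-/

set_option autoImplicit false

namespace Pool.Agent.Lib.MP_edb5be_nt.PD.H22

open Finset Pool.Agent.Lib.MP_edb5be_nt.EX Pool.Agent.Lib.MP_edb5be_nt.PD

theorem ploc (h1 : BwFStatement) (h2 : ND.BinLocStatement) : PLocStatement := by
  obtain ⟨c, hc, hB⟩ := h2
  refine ⟨c / 8, by positivity, ?_⟩
  intro n b L hL hLn hb hbn
  have hn1 : 1 ≤ n := by omega
  -- real versions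
  have hLr : (100 : ℝ) ≤ L := by exact_mod_cast hL
  have hLnr : (L : ℝ) ≤ n := by exact_mod_cast hLn
  have hbr : (b : ℝ) ≤ 10 * L := by exact_mod_cast hb
  have hbnr : ((b : ℝ) - 2 * n) ^ 2 ≤ 4 * L := by exact_mod_cast hbn
  set s : ℝ := √(L : ℝ) with hs
  have hs0 : 0 ≤ s := Real.sqrt_nonneg _
  have hss : s * s = L := Real.mul_self_sqrt (by linarith)
  have hs10 : 10 ≤ s := by
    by_contra hcon
    push Not at hcon
    nlinarith
  have habs : |(b : ℝ) - 2 * n| ≤ 2 * s := by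
    apply abs_le_of_sq_le_sq _ (by linarith)
    nlinarith
  obtain ⟨hlo, hhi⟩ := abs_le.1 habs
  -- `n ≤ b`
  have hbL : (L : ℝ) + 1 ≤ b := by nlinarith
  have hnb : n ≤ b := by
    have : (n : ℝ) ≤ b := by nlinarith
    exact_mod_cast this
  have hb1 : 1 ≤ b - 1 := by omega
  have hcast : ((b - 1 : ℕ) : ℝ) = (b : ℝ) - 1 := by
    rw [Nat.cast_sub (by omega)]; simp
  have hcastn : ((n - 1 : ℕ) : ℝ) = (n : ℝ) - 1 := by
    rw [Nat.cast_sub (by omega)]; simp
  have hsb : s ≤ √((b - 1 : ℕ) : ℝ) := by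
    rw [hs]
    apply Real.sqrt_le_sqrt
    rw [hcast]
    linarith
  have hsb4 : √((b - 1 : ℕ) : ℝ) ≤ 4 * s := by
    rw [Real.sqrt_le_left (by linarith)]
    rw [hcast]
    nlinarith
  have hpos : 0 < √((b - 1 : ℕ) : ℝ) := by linarith
  have key := hB (b - 1) (n - 1) hb1 (by omega) (by
    rw [hcast, hcastn]
    rw [hcast] at hsb
    rw [abs_le]
    constructor <;> nlinarith)
  have hP : Pb n b = ND.bw (b - 1) (n - 1) / 2 := by
    rcases h1.2.1 n b hn1 with h | ⟨h, -⟩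
    · exact h
    · omega
  rw [hP]
  have hs' : 0 < s := by linarith
  calc c / 8 / s = (c / (4 * s)) / 2 := by field_simp; norm_num
    _ ≤ (c / √((b - 1 : ℕ) : ℝ)) / 2 := by
        apply div_le_div_of_nonneg_right _ (by norm_num)
        exact div_le_div_of_nonneg_left hc.le hpos hsb4
    _ ≤ ND.bw (b - 1) (n - 1) / 2 := by
        apply div_le_div_of_nonneg_right key (by norm_num)

end Pool.Agent.Lib.MP_edb5be_nt.PD.H22
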